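import Pool.Agent.H69.TRI.StmtsP

/-!
# Module EQL of block A of project TRI
-/

open MeasureTheory Set Filter Topology InnerProductSpace Metric
open scoped Real ComplexConjugate ContDiff Laplacian

namespace Pool.TRI.A

private theorem eql_sum {T : Set ℂ} (B : Bary T) (z : ℂ) : B.x 0 z + B.x 1 z + B.x 2 z = 1 := by
  have h1 := congrArg Complex.re B.sum_g
  have h2 := congrArg Complex.im B.sum_g
  have h3 := B.sum_b
  simp only [Complex.add_re, Complex.add_im, Complex.zero_re, Complex.zero_im] at h1 h2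
  unfold Bary.x
  simp only [Complex.mul_re, Complex.conj_re, Complex.conj_im]
  linear_combination h3 + z.re * h1 + z.im * h2

private theorem eql_cont {T : Set ℂ} (B : Bary T) (k : Fin 3) : ContDiff ℝ ∞ (B.x k) := by
  unfold Bary.x
  refine ContDiff.add ?_ contDiff_const
  exact Complex.reCLM.contDiff.comp (contDiff_id.mul contDiff_const)

private theorem eql_open {T : Set ℂ} (B : Bary T) : IsOpen T := by
  have : T = ⋂ k, {z | 0 < B.x k z} := by
    ext z; rw [B.mem_iff]; simp [Bary.x]
  rw [this]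
  exact isOpen_iInter_of_finite fun k => isOpen_lt continuous_const (eql_cont B k).continuous

private theorem eql_nonempty {T : Set ℂ} (B : Bary T) : ∃ z, z ∈ T := by
  set d : ℝ := (B.g 0 * conj (B.g 1)).im with hd
  have hd0 : d ≠ 0 := B.indep
  set a0 : ℝ := 1 / 3 - B.b 0 with ha0
  set a1 : ℝ := 1 / 3 - B.b 1 with ha1
  set z : ℂ := ⟨-(a0 * (B.g 1).im - a1 * (B.g 0).im) / d, (a0 * (B.g 1).re - a1 * (B.g 0).re) / d⟩ with hz
  have hd' : (B.g 0).im * (B.g 1).re - (B.g 0).re * (B.g 1).im = d := by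
    rw [hd]; simp only [Complex.mul_im, Complex.conj_re, Complex.conj_im]; ring
  have x0 : B.x 0 z = 1 / 3 := by
    unfold Bary.x
    simp only [Complex.mul_re, Complex.conj_re, Complex.conj_im, hz]
    field_simp
    rw [ha0]
    linear_combination (1 - 3 * B.b 0) * hd'
  have x1 : B.x 1 z = 1 / 3 := by
    unfold Bary.x
    simp only [Complex.mul_re, Complex.conj_re, Complex.conj_im, hz]
    field_simp
    rw [ha1]
    linear_combination (1 - 3 * B.b 1) * hd'
  have x2 : B.x 2 z = 1 / 3 := by
    have := eql_sum B z; rw [x0, x1] at this; linarith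
  refine ⟨z, (B.mem_iff z).mpr ?_⟩
  intro k
  fin_cases k
  · show 0 < B.x 0 z; rw [x0]; norm_num
  · show 0 < B.x 1 z; rw [x1]; norm_num
  · show 0 < B.x 2 z; rw [x2]; norm_num

/-- EQL -/
theorem eql (h1 : LapBStmt) (h2 : RayKStmt) (h3 : PhiStmt) (h4 : JacStmt) : EqLStmt := by
  obtain ⟨p1, p2, p3, p4, p5, p6⟩ := h3
  intro T B hc01 hc12
  have hopen := eql_open B
  have hsum : ∀ F : Fin 3 → ℝ, ∑ k, B.c k * F k = B.c 0 * (F 0 + F 1 + F 2) := by
    intro F; rw [Fin.sum_univ_three, ← hc12, ← hc01]; ring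
  apply le_antisymm
  · have h := h2 T B phi0 p1 p2 (by rw [p5]; norm_num)
    rw [p5, hsum, p6, p6, p6] at h
    linarith
  · set φ : ℂ → ℝ := fun z => phi0 (fun k => B.x k z) with hφ
    have hxs : ContDiff ℝ ∞ fun z => (fun k => B.x k z : Fin 3 → ℝ) := contDiff_pi.mpr fun k => eql_cont B k
    have hφs : ContDiff ℝ ∞ φ := p1.comp hxs
    have hpos : ∀ z ∈ T, 0 < φ z := by
      intro z hz
      have hz' : ∀ k, 0 < B.x k z := (B.mem_iff z).mp hz
      have hs := eql_sum B z
      show 0 < phi0 (fun k => B.x k z)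
      rw [p4 _ hs]
      have hsin : ∀ k, 0 < Real.sin (π * B.x k z) := by
        intro k
        apply Real.sin_pos_of_pos_of_lt_pi
        · exact mul_pos Real.pi_pos (hz' k)
        · have : B.x k z < 1 := by
            have a0 := hz' 0
            have a1 := hz' 1
            have a2 := hz' 2
            fin_cases k
            · show B.x 0 z < 1; linarith
            · show B.x 1 z < 1; linarith
            · show B.x 2 z < 1; linarith
          nlinarith [Real.pi_pos]
      exact mul_pos (mul_pos (mul_pos (by norm_num) (hsin 0)) (hsin 1)) (hsin 2)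
    have hlap : ∀ z ∈ T, (Δ φ) z = - (8 * π ^ 2 * B.c 0) * φ z := by
      intro z _
      rw [hφ, h1 T B phi0 (contDiff_infty.mp p1 2) z, hsum, p3, p3, p3]
      show _ = - (8 * π ^ 2 * B.c 0) * phi0 (fun k => B.x k z)
      have : Real.sin (2 * π * B.x 0 z) + Real.sin (2 * π * B.x 1 z) + Real.sin (2 * π * B.x 2 z)
        = phi0 (fun k => B.x k z) := rfl
      linear_combination (4 * π ^ 2 * B.c 0) * this
    unfold lambda1
    apply le_csInf
    · obtain ⟨z0, hz0⟩ := eql_nonempty B
      obtain ⟨f, hf1, hf2, hf3, -, hf4⟩ := exists_contDiff_tsupport_subset (n := ⊤) (hopen.mem_nhds hz0)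
      refine ⟨_, f, ⟨hf3, hf2, hf1, ?_⟩, rfl⟩
      intro h0
      rw [h0] at hf4
      simp at hf4
    · rintro r ⟨v, hv, rfl⟩
      have hJ := h4 T φ (8 * π ^ 2 * B.c 0) hopen hφs.contDiffOn hpos hlap v hv
      obtain ⟨v1, v2, v3, v4⟩ := hv
      obtain ⟨z0, hz0⟩ : ∃ z, v z ≠ 0 := by
        by_contra hne
        push Not at hne
        exact v4 (funext hne)
      have hvp : 0 < ∫ z, v z ^ 2 := by
        refine (v1.continuous.pow 2).integral_pos_of_hasCompactSupport_nonneg_nonzero (x := z0) ?_ ?_ ?_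
        · exact v2.comp_left (g := fun t : ℝ => t ^ 2) (by norm_num)
        · intro z; positivity
        · positivity
      rw [le_div_iff₀ hvp]
      exact hJ

end Pool.TRI.A
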