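import Pool.Agent.H69.TRI.StmtsP

/-!
# Module GEO1 of block A of project TRI
-/

open MeasureTheory Set Filter Topology InnerProductSpace Metric
open scoped Real ComplexConjugate ContDiff Laplacian

namespace Pool.TRI.A

private theorem geo1_s3 : (√3 : ℝ) * √3 = 3 := Real.mul_self_sqrt (by norm_num)

private theorem geo1_om2 : om ^ 2 = ⟨-1 / 2, -(√3 / 2)⟩ := by
  have h := geo1_s3
  apply Complex.ext
  · simp only [om, pow_two, Complex.mul_re]; nlinarith
  · simp only [om, pow_two, Complex.mul_im]; ring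

private theorem geo1_conj : conj om = om ^ 2 := by
  rw [geo1_om2]
  apply Complex.ext
  · simp [om]
  · simp [om]

private theorem geo1_sum : 1 + om + om ^ 2 = 0 := by
  rw [geo1_om2]
  apply Complex.ext
  · simp [om]; norm_num
  · simp [om]

private theorem geo1_cube : om ^ 3 = 1 := by
  have h : om ^ 3 - 1 = (om - 1) * (1 + om + om ^ 2) := by ring
  rw [geo1_sum, mul_zero] at h
  exact sub_eq_zero.mp h

private theorem geo1_norm : ‖om‖ = 1 := by
  have h : ‖om‖ ^ 3 = 1 := by rw [← norm_pow, geo1_cube, norm_one]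
  exact (pow_eq_one_iff_of_nonneg (norm_nonneg _) (by norm_num)).mp h

private theorem geo1_X0 (w : ℂ) : X 0 w = 1 + w.re := by simp [X]

private theorem geo1_X1 (w : ℂ) : X 1 w = 1 - w.re / 2 + √3 / 2 * w.im := by
  have : X 1 w = 1 + (w * conj om).re := by simp [X]
  rw [this, geo1_conj, geo1_om2, Complex.mul_re]; ring

private theorem geo1_X2 (w : ℂ) : X 2 w = 1 - w.re / 2 - √3 / 2 * w.im := by
  have : X 2 w = 1 + (w * conj om ^ 2).re := by simp [X]
  have h2 : conj om ^ 2 = om := by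
    rw [geo1_conj]
    calc (om ^ 2) ^ 2 = om ^ 3 * om := by ring
      _ = om := by rw [geo1_cube, one_mul]
  rw [this, h2, Complex.mul_re]; simp only [om]; ring

private theorem geo1_rot (k : Fin 3) (w : ℂ) : X (k + 1) (om * w) = X k w := by
  have h := geo1_s3
  fin_cases k
  · show X 1 (om * w) = X 0 w
    rw [geo1_X1, geo1_X0]; simp only [om, Complex.mul_re, Complex.mul_im]; linear_combination (w.re / 4) * h
  · show X 2 (om * w) = X 1 w
    rw [geo1_X2, geo1_X1]; simp only [om, Complex.mul_re, Complex.mul_im]; linear_combination (-w.re / 4) * h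
  · show X 0 (om * w) = X 2 w
    rw [geo1_X0, geo1_X2]; simp only [om, Complex.mul_re]; ring

private theorem geo1_E (w : ℂ) : E w = 1 - 3 / 4 * ‖w‖ ^ 2 + (w ^ 3).re / 4 := by
  have h := geo1_s3
  have h1 : ‖w‖ ^ 2 = w.re ^ 2 + w.im ^ 2 := by
    rw [← Complex.normSq_eq_norm_sq, Complex.normSq_apply]; ring
  have h2 : (w ^ 3).re = w.re ^ 3 - 3 * w.re * w.im ^ 2 := by
    rw [show w ^ 3 = w * (w * w) by ring]; simp only [Complex.mul_re, Complex.mul_im]; ring
  rw [h1, h2]
  unfold E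
  rw [geo1_X0, geo1_X1, geo1_X2]
  have : (1 + w.re) * (1 - w.re / 2 + √3 / 2 * w.im) * (1 - w.re / 2 - √3 / 2 * w.im)
    = (1 + w.re) * ((1 - w.re / 2) ^ 2 - (√3 * √3) / 4 * w.im ^ 2) := by ring
  rw [this, h]; ring

/-- GEO1 -/
theorem geo1 : Geo1Stmt := by
  have hs := geo1_s3
  refine ⟨geo1_cube, geo1_sum, geo1_conj, geo1_norm, ?_, geo1_rot, geo1_E, ?_, ?_, ?_, ?_, ?_⟩
  · intro w; rw [geo1_X0, geo1_X1, geo1_X2]; ring
  · intro w; unfold F0; rw [geo1_E]; ring
  · intro w
    have h0 := geo1_rot 0 w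
    have h1 := geo1_rot 1 w
    have h2 := geo1_rot 2 w
    have e0 : (0 : Fin 3) + 1 = 1 := rfl
    have e1 : (1 : Fin 3) + 1 = 2 := rfl
    have e2 : (2 : Fin 3) + 1 = 0 := rfl
    rw [e0] at h0; rw [e1] at h1; rw [e2] at h2
    unfold E; rw [h0, h1, h2]; ring
  · intro w hw
    have h0 := hw 0
    have h1 := hw 1
    have h2 := hw 2
    rw [geo1_X0] at h0; rw [geo1_X1] at h1; rw [geo1_X2] at h2
    have hn : ‖w‖ ^ 2 = w.re ^ 2 + w.im ^ 2 := by
      rw [← Complex.normSq_eq_norm_sq, Complex.normSq_apply]; ring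
    have h3 : ‖w‖ ^ 2 ≤ 2 ^ 2 := by
      rw [hn]
      nlinarith [mul_nonneg h0 h1, mul_nonneg h0 h2, mul_nonneg h1 h2]
    exact (abs_le_of_sq_le_sq' h3 (by norm_num)).2
  · intro w hw
    have h0 := hw 0
    have h1 := hw 1
    have h2 := hw 2
    rw [geo1_X0] at h0; rw [geo1_X1] at h1; rw [geo1_X2] at h2
    nlinarith [mul_nonneg h0 h1, mul_nonneg h0 h2, mul_nonneg h1 h2]
  · intro w hw k
    have h : |(w * (conj om) ^ (k : ℕ)).re| ≤ 1 := by
      refine (Complex.abs_re_le_norm _).trans ?_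
      rw [norm_mul, norm_pow]
      have : ‖conj om‖ = 1 := by rw [RCLike.norm_conj]; exact geo1_norm
      rw [this, one_pow, mul_one]; exact hw
    have := (abs_le.mp h).1
    unfold X; linarith

end Pool.TRI.A
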