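import Pool.Agent.H69.TRI.StmtsP

/-!
# Module GEO2 of block A of project TRI
-/

open MeasureTheory Set Filter Topology InnerProductSpace Metric
open scoped Real ComplexConjugate ContDiff Laplacian

namespace Pool.TRI.A

private theorem geo2_ev_om (h1 : Geo1Stmt) (r : ℕ) (l : List (ℤ × ℕ × ℕ))
    (hl : ∀ t ∈ l, (t.2.1 + 2 * t.2.2) % 3 = r) (w : ℂ) : ev l (om * w) = om ^ r * ev l w := by
  obtain ⟨hc, -, hj, -⟩ := h1
  induction l with
  | nil => simp [ev]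
  | cons t l ih =>
    have ht := hl t (by simp)
    have ih' := ih (fun t ht => hl t (by simp [ht]))
    have e1 : ∀ z, ev (t :: l) z = (t.1 : ℂ) * z ^ t.2.1 * (conj z) ^ t.2.2 + ev l z := by
      intro z; simp [ev]
    rw [e1, e1, ih', map_mul, hj, mul_pow, mul_pow, ← pow_mul]
    have h3 : om ^ t.2.1 * om ^ (2 * t.2.2) = om ^ r := by
      rw [← pow_add]
      conv_lhs => rw [← Nat.div_add_mod (t.2.1 + 2 * t.2.2) 3]
      rw [pow_add, pow_mul, hc, one_pow, one_mul, ht]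
    rw [← h3]; ring

private theorem geo2_E (h1 : Geo1Stmt) (w : ℂ) :
    (E w : ℂ) = 1 - 3 / 4 * (w * conj w) + (w ^ 3 + (conj w) ^ 3) / 8 := by
  obtain ⟨-, -, -, -, -, -, hE, -⟩ := h1
  rw [hE]
  have h2 : ((‖w‖ ^ 2 : ℝ) : ℂ) = w * conj w := by
    rw [Complex.mul_conj, Complex.normSq_eq_norm_sq]
  have h3 : (((w ^ 3).re : ℝ) : ℂ) = (w ^ 3 + (conj w) ^ 3) / 2 := by
    rw [Complex.re_eq_add_conj, map_pow]
  push_cast at h2 ⊢
  rw [h2, h3]; ring

set_option maxRecDepth 100000 in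
/-- GEO2 -/
theorem geo2 (h1 : Geo1Stmt) : Geo2Stmt := by
  have hEo : ∀ w, E (om * w) = E w := h1.2.2.2.2.2.2.2.2.1
  have hc := h1.1
  refine ⟨?_, ?_, ?_, ?_⟩
  · intro w
    unfold f g
    rw [hEo, geo2_ev_om h1 1 gl (by decide) w]; ring
  · intro w
    unfold Bm
    rw [hEo, geo2_ev_om h1 0 bl (by decide) w]; simp
  · intro w
    unfold f g
    rw [geo2_E h1 w]
    simp only [ev, gl, fl, List.map_cons, List.map_nil, List.sum_cons, List.sum_nil]
    push_cast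
    ring
  · intro β ζ
    have hh1 : hh (om * ζ) = hh ζ := by
      unfold hh
      have e3 : (om * ζ) ^ 3 = ζ ^ 3 := by rw [mul_pow, hc, one_mul]
      have e6 : (om * ζ) ^ 6 = ζ ^ 6 := by
        rw [show (om * ζ) ^ 6 = ((om * ζ) ^ 3) ^ 2 by ring, e3]; ring
      have e9 : (om * ζ) ^ 9 = ζ ^ 9 := by
        rw [show (om * ζ) ^ 9 = ((om * ζ) ^ 3) ^ 3 by ring, e3]; ring
      have e12 : (om * ζ) ^ 12 = ζ ^ 12 := by
        rw [show (om * ζ) ^ 12 = ((om * ζ) ^ 3) ^ 4 by ring, e3]; ring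
      rw [e3, e6, e9, e12]
    refine ⟨hh1, ?_⟩
    unfold HH F0
    rw [hh1, hEo]

end Pool.TRI.A
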