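import Pool.Agent.H69.TRI.StmtsP

/-!
# Module LX of block A of project TRI
-/

open MeasureTheory Set Filter Topology InnerProductSpace Metric
open scoped Real ComplexConjugate ContDiff Laplacian

namespace Pool.TRI.A

private theorem lx_s3 : (√3 : ℝ) * √3 = 3 := Real.mul_self_sqrt (by norm_num)

private theorem lx_om2 : om ^ 2 = ⟨-1 / 2, -(√3 / 2)⟩ := by
  have h := lx_s3
  apply Complex.ext
  · simp only [om, pow_two, Complex.mul_re]; nlinarith
  · simp only [om, pow_two, Complex.mul_im]; ring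

private theorem lx_re (x : Fin 3 → ℝ) : (W x).re = 2 * x 0 - x 1 - x 2 := by
  unfold W
  rw [lx_om2]
  simp [om]; ring

private theorem lx_im (x : Fin 3 → ℝ) : (W x).im = √3 * (x 1 - x 2) := by
  unfold W
  rw [lx_om2]
  simp [om]; ring

/-- real part of `w ^ n` as a polynomial in `re w` and `(im w)^2` -/
private noncomputable def lxH (U V : ℝ) : ℕ → ℝ
  | 0 => 1
  | 1 => U
  | (n + 2) => 2 * U * lxH U V (n + 1) - (U ^ 2 + V) * lxH U V n

private theorem lx_H (w : ℂ) (n : ℕ) : (w ^ n).re = lxH w.re (w.im ^ 2) n := by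
  induction n using Nat.strong_induction_on with
  | _ n ih =>
    match n, ih with
    | 0, _ => simp [lxH]
    | 1, _ => simp [lxH]
    | (n + 2), ih =>
      have h1 := ih (n + 1) (by omega)
      have h0 := ih n (by omega)
      simp only [lxH]
      rw [← h1, ← h0]
      rw [show w ^ (n + 2) = w * w ^ (n + 1) by ring, show w ^ (n + 1) = w * w ^ n by ring]
      simp only [Complex.mul_re, Complex.mul_im]; ring

private noncomputable def lxM (U V : ℝ) (a b : ℕ) : ℝ := (U ^ 2 + V) ^ (min a b) * lxH U V (max a b - min a b)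

private theorem lx_M (w : ℂ) (a b : ℕ) : (w ^ a * (conj w) ^ b).re = lxM w.re (w.im ^ 2) a b := by
  have hn : w * conj w = ((w.re ^ 2 + w.im ^ 2 : ℝ) : ℂ) := by
    rw [Complex.mul_conj, Complex.normSq_apply]; push_cast; ring
  unfold lxM
  rcases le_total b a with h | h
  · rw [min_eq_right h, max_eq_left h]
    obtain ⟨c, rfl⟩ := Nat.exists_eq_add_of_le h
    rw [show w ^ (b + c) * (conj w) ^ b = (w * conj w) ^ b * w ^ c by ring, hn, ← Complex.ofReal_pow,
      Complex.re_ofReal_mul, lx_H]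
    congr 2; omega
  · rw [min_eq_left h, max_eq_right h]
    obtain ⟨c, rfl⟩ := Nat.exists_eq_add_of_le h
    rw [show w ^ a * (conj w) ^ (a + c) = (w * conj w) ^ a * (conj w) ^ c by ring, hn, ← Complex.ofReal_pow,
      Complex.re_ofReal_mul, ← map_pow, Complex.conj_re, lx_H]
    congr 2; omega

private theorem lx_ev (l : List (ℤ × ℕ × ℕ)) (w : ℂ) :
    (ev l w).re = (l.map fun t => (t.1 : ℝ) * lxM w.re (w.im ^ 2) t.2.1 t.2.2).sum := by
  induction l with
  | nil => simp [ev]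
  | cons t l ih =>
    have e1 : ev (t :: l) w = (t.1 : ℂ) * (w ^ t.2.1 * (conj w) ^ t.2.2) + ev l w := by
      simp [ev, mul_assoc]
    rw [e1, Complex.add_re, ih, List.map_cons, List.sum_cons, ← lx_M]
    congr 1
    rw [show ((t.1 : ℤ) : ℂ) = ((t.1 : ℝ) : ℂ) by push_cast; rfl, Complex.re_ofReal_mul]

private theorem lx_imsq (x : Fin 3 → ℝ) : (W x).im ^ 2 = 3 * (x 1 - x 2) ^ 2 := by
  rw [lx_im, mul_pow, pow_two √3, lx_s3]

private theorem lxH0 (U V : ℝ) : lxH U V 0 = 1 := rfl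
private theorem lxH1 (U V : ℝ) : lxH U V 1 = U := rfl
private theorem lxH2 (U V : ℝ) : lxH U V 2 = U ^ 2 - V := by
  have : lxH U V 2 = 2 * U * lxH U V 1 - (U ^ 2 + V) * lxH U V 0 := rfl
  rw [this, lxH1, lxH0]; ring
private theorem lxH3 (U V : ℝ) : lxH U V 3 = U ^ 3 - 3 * U * V := by
  have : lxH U V 3 = 2 * U * lxH U V 2 - (U ^ 2 + V) * lxH U V 1 := rfl
  rw [this, lxH1, lxH2]; ring
private theorem lxH4 (U V : ℝ) : lxH U V 4 = U ^ 4 - 6 * U ^ 2 * V + V ^ 2 := by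
  have : lxH U V 4 = 2 * U * lxH U V 3 - (U ^ 2 + V) * lxH U V 2 := rfl
  rw [this, lxH3, lxH2]; ring
private theorem lxH5 (U V : ℝ) : lxH U V 5 = U ^ 5 - 10 * U ^ 3 * V + 5 * U * V ^ 2 := by
  have : lxH U V 5 = 2 * U * lxH U V 4 - (U ^ 2 + V) * lxH U V 3 := rfl
  rw [this, lxH3, lxH4]; ring
private theorem lxH6 (U V : ℝ) : lxH U V 6 = U ^ 6 - 15 * U ^ 4 * V + 15 * U ^ 2 * V ^ 2 - V ^ 3 := by
  have : lxH U V 6 = 2 * U * lxH U V 5 - (U ^ 2 + V) * lxH U V 4 := rfl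
  rw [this, lxH5, lxH4]; ring
private theorem lxH7 (U V : ℝ) : lxH U V 7 = U ^ 7 - 21 * U ^ 5 * V + 35 * U ^ 3 * V ^ 2 - 7 * U * V ^ 3 := by
  have : lxH U V 7 = 2 * U * lxH U V 6 - (U ^ 2 + V) * lxH U V 5 := rfl
  rw [this, lxH5, lxH6]; ring
private theorem lxH8 (U V : ℝ) : lxH U V 8 =
    U ^ 8 - 28 * U ^ 6 * V + 70 * U ^ 4 * V ^ 2 - 28 * U ^ 2 * V ^ 3 + V ^ 4 := by
  have : lxH U V 8 = 2 * U * lxH U V 7 - (U ^ 2 + V) * lxH U V 6 := rfl
  rw [this, lxH7, lxH6]; ring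
private theorem lxH9 (U V : ℝ) : lxH U V 9 =
    U ^ 9 - 36 * U ^ 7 * V + 126 * U ^ 5 * V ^ 2 - 84 * U ^ 3 * V ^ 3 + 9 * U * V ^ 4 := by
  have : lxH U V 9 = 2 * U * lxH U V 8 - (U ^ 2 + V) * lxH U V 7 := rfl
  rw [this, lxH7, lxH8]; ring

private theorem lx_uv (x : Fin 3 → ℝ) (hx : x 0 + x 1 + x 2 = 1) :
    (W x).re = 2 - 3 * (x 1 + x 2) := by
  rw [lx_re]; linarith

set_option maxRecDepth 100000 in
private theorem lx_g (x : Fin 3 → ℝ) (hx : x 0 + x 1 + x 2 = 1) : (ev gl (W x)).re = evx gX x := by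
  rw [lx_ev, lx_uv x hx, lx_imsq]
  have h0 : x 0 = 1 - x 1 - x 2 := by linarith
  simp only [gl, evx, gX, mon, List.map_cons, List.map_nil, List.sum_cons, List.sum_nil]
  rw [h0]
  generalize x 1 = s
  generalize x 2 = t
  norm_num only [lxM, lxH0, lxH1, lxH2, lxH3, lxH4, lxH5, lxH6, lxH7, lxH8, lxH9, min_def, max_def, if_true, if_false]
  ring

set_option maxRecDepth 100000 in
private theorem lx_b (x : Fin 3 → ℝ) (hx : x 0 + x 1 + x 2 = 1) : (ev bl (W x)).re = evx bX x := by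
  rw [lx_ev, lx_uv x hx, lx_imsq]
  have h0 : x 0 = 1 - x 1 - x 2 := by linarith
  simp only [bl, evx, bX, mon, List.map_cons, List.map_nil, List.sum_cons, List.sum_nil]
  rw [h0]
  generalize x 1 = s
  generalize x 2 = t
  norm_num only [lxM, lxH0, lxH1, lxH2, lxH3, lxH4, lxH5, lxH6, lxH7, lxH8, lxH9, min_def, max_def, if_true, if_false]
  ring

private theorem lx_gs (x : Fin 3 → ℝ) (hx : x 0 + x 1 + x 2 = 1) : (g (W x)).re = evx gX x / 10 ^ 8 := by
  unfold g
  rw [← lx_g x hx]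
  rw [show (10 ^ 8 : ℂ) = ((10 ^ 8 : ℝ) : ℂ) by push_cast; rfl, Complex.div_ofReal_re]

private theorem lx_X0 (w : ℂ) : X 0 w = 1 + w.re := by simp [X]

private theorem lx_X1 (h1 : Geo1Stmt) (w : ℂ) : X 1 w = 1 - w.re / 2 + √3 / 2 * w.im := by
  have : X 1 w = 1 + (w * conj om).re := by simp [X]
  rw [this, h1.2.2.1, lx_om2, Complex.mul_re]; ring

private theorem lx_X2 (h1 : Geo1Stmt) (w : ℂ) : X 2 w = 1 - w.re / 2 - √3 / 2 * w.im := by
  have := h1.2.2.2.2.1 w
  rw [lx_X0, lx_X1 h1] at this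
  linarith

private theorem lx_evgl (h1 : Geo1Stmt) (l : List (ℤ × ℕ × ℕ))
    (hl : ∀ t ∈ l, (t.2.1 + 2 * t.2.2) % 3 = 1) (w : ℂ) : ev l (om * w) = om * ev l w := by
  obtain ⟨hc, -, hj, -⟩ := h1
  induction l with
  | nil => simp [ev]
  | cons t l ih =>
    have ht := hl t (by simp)
    have ih' := ih (fun t ht => hl t (by simp [ht]))
    have e1 : ∀ z, ev (t :: l) z = (t.1 : ℂ) * z ^ t.2.1 * (conj z) ^ t.2.2 + ev l z := by
      intro z; simp [ev]
    rw [e1, e1, ih', map_mul, hj, mul_pow, mul_pow, ← pow_mul]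
    have h3 : om ^ t.2.1 * om ^ (2 * t.2.2) = om := by
      rw [← pow_add]
      conv_lhs => rw [← Nat.div_add_mod (t.2.1 + 2 * t.2.2) 3]
      rw [pow_add, pow_mul, hc, one_pow, one_mul, ht, pow_one]
    calc _ = (om ^ t.2.1 * om ^ (2 * t.2.2)) * ((t.1 : ℂ) * w ^ t.2.1 * (conj w) ^ t.2.2) + om * ev l w := by ring
      _ = _ := by rw [h3]; ring

private theorem lx_Wrot (h1 : Geo1Stmt) (x : Fin 3 → ℝ) : om * W x = W ![x 2, x 0, x 1] := by
  have hc := h1.1
  unfold W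
  simp only [Matrix.cons_val_zero, Matrix.cons_val_one, Matrix.cons_val]
  linear_combination 2 * (x 2 : ℂ) * hc

/-- LX -/
theorem lx (h1 : Geo1Stmt) : LXStmt := by
  refine ⟨?_, ?_⟩
  · intro x hx
    have hX : ∀ k, X k (W x) = 3 * x k := by
      intro k
      have h3 := lx_s3
      fin_cases k
      · show X 0 (W x) = 3 * x 0
        rw [lx_X0, lx_re]; linarith
      · show X 1 (W x) = 3 * x 1
        rw [lx_X1 h1, lx_re, lx_im]
        linear_combination (-1 : ℝ) * hx + (x 1 - x 2) / 2 * h3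
      · show X 2 (W x) = 3 * x 2
        rw [lx_X2 h1, lx_re, lx_im]
        linear_combination (-1 : ℝ) * hx - (x 1 - x 2) / 2 * h3
    refine ⟨hX, ?_, lx_gs x hx, ?_, lx_b x hx⟩
    · unfold E; rw [hX, hX, hX]; ring
    · rw [evx_rot]
      have e1 : om * g (W x) = g (W ![x 2, x 0, x 1]) := by
        rw [← lx_Wrot h1]
        unfold g
        rw [lx_evgl h1 gl (by decide)]; ring
      rw [e1]
      exact lx_gs _ (by simp; linarith)
  · intro w
    have h3 := lx_s3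
    refine ⟨?_, ?_⟩
    · have := h1.2.2.2.2.1 w
      rw [Fin.sum_univ_three]; linarith
    · apply Complex.ext
      · rw [lx_re]
        rw [lx_X0, lx_X1 h1, lx_X2 h1]; ring
      · rw [lx_im]
        rw [lx_X1 h1, lx_X2 h1]
        linear_combination w.im / 3 * h3

end Pool.TRI.A
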