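import Pool.Agent.H69.TRI.StmtsP

/-!
# Module U0 of block A of project TRI
-/

open MeasureTheory Set Filter Topology InnerProductSpace Metric
open scoped Real ComplexConjugate ContDiff Laplacian

namespace Pool.TRI.A

private def u0F : List (ℤ × ℕ × ℕ) := [(8, 0, 0), (-6, 1, 1), (2, 3, 0)]
private def u0H : List (ℤ × ℕ × ℕ) :=
  [(-28141097, 0, 0), (-43490070, 3, 0), (2166284, 6, 0), (69115, 9, 0), (7464, 12, 0)]

private theorem u0_smooth (κ : ℂ) (l : List (ℤ × ℕ × ℕ)) (z : ℂ) :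
    ContDiffAt ℝ 2 (fun z => (κ * ev l (aff 0 z)).re) z := by
  have h : ContDiff ℝ 2 (fun z : ℂ => κ * ev l (aff 0 z)) := by
    refine contDiff_const.mul ?_
    have haff : ContDiff ℝ 2 (fun z : ℂ => aff 0 z) := by
      unfold aff
      exact contDiff_id.add (contDiff_const.mul Complex.conjCLE.contDiff)
    induction l with
    | nil =>
      have : (fun z : ℂ => ev [] (aff 0 z)) = fun _ => 0 := by funext z; simp [ev]
      rw [this]; exact contDiff_const
    | cons t l ih =>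
      have : (fun z : ℂ => ev (t :: l) (aff 0 z)) =
          fun z => (t.1 : ℂ) * (aff 0 z) ^ t.2.1 * (conj (aff 0 z)) ^ t.2.2 + ev l (aff 0 z) := by
        funext z; simp [ev]
      rw [this]
      refine ContDiff.add ?_ ih
      exact (contDiff_const.mul (haff.pow _)).mul ((Complex.conjCLE.contDiff.comp haff).pow _)
  exact (Complex.reCLM.contDiff.comp h).contDiffAt

private theorem u0_HH (h5 : Geo1Stmt) (β z : ℂ) :
    HH β z = ((((1 + ‖β‖ ^ 2) / 12 : ℝ) : ℂ) * ev u0F (aff 0 z)).re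
      + (((‖β‖ ^ 2 / 10 ^ 8 : ℝ) : ℂ) * ev u0H (aff 0 z)).re := by
  have h0 : aff 0 z = z := by simp [aff]
  rw [h0, Complex.re_ofReal_mul, Complex.re_ofReal_mul]
  unfold HH
  have hF : F0 z = (ev u0F z).re / 12 := by
    rw [h5.2.2.2.2.2.2.2.1 z]
    have e : ev u0F z = 8 - 6 * (z * conj z) + 2 * z ^ 3 := by
      simp [ev, u0F]; ring
    rw [e, Complex.mul_conj, Complex.normSq_eq_norm_sq]
    have e2 : (8 - 6 * ((‖z‖ ^ 2 : ℝ) : ℂ) + 2 * z ^ 3).re = 8 - 6 * ‖z‖ ^ 2 + 2 * (z ^ 3).re := by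
      rw [Complex.add_re, Complex.sub_re]
      simp only [Complex.mul_re, Complex.ofReal_re, Complex.ofReal_im]
      simp
    rw [e2]; ring
  have hh2 : hh z = (ev u0H z).re / 10 ^ 8 := by
    have e : ev u0H z = -28141097 + (-43490070) * z ^ 3 + 2166284 * z ^ 6 + 69115 * z ^ 9 + 7464 * z ^ 12 := by
      simp [ev, u0H]; ring
    unfold hh
    rw [e]
    simp only [Complex.add_re, Complex.mul_re, Complex.neg_re, Complex.neg_im]
    simp
  rw [hF, hh2]; ring

private theorem u0_lap (h3 : LapWStmt) (β ζ : ℂ) :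
    (Δ fun z => ((((1 + ‖β‖ ^ 2) / 12 : ℝ) : ℂ) * ev u0F (aff 0 z)).re) ζ = -(2 * (1 + ‖β‖ ^ 2)) ∧
    (Δ fun z => (((‖β‖ ^ 2 / 10 ^ 8 : ℝ) : ℂ) * ev u0H (aff 0 z)).re) ζ = 0 := by
  constructor
  · rw [h3]
    have e : ev (lwb u0F) (aff 0 ζ) = -6 := by
      simp [ev, lwb, u0F]
    rw [e]
    rw [Complex.re_ofReal_mul]
    simp
    ring
  · rw [h3]
    have e : ev (lwb u0H) (aff 0 ζ) = 0 := by
      simp [ev, lwb, u0H]
    rw [e]
    simp

/-- U0 -/
theorem u0 (h1 : MaxPStmt) (h2 : LapSimStmt) (h3 : LapWStmt) (h4 : TopTbStmt) (h5 : Geo1Stmt) (_h6 : Geo2Stmt)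
    (h7 : JStmt) : U0Stmt := by
  intro β v hβ hv hL
  have hβ1 : ‖β‖ < 1 := lt_of_le_of_lt hβ (by unfold sA; norm_num)
  obtain ⟨hop, hbd, hcl, -⟩ := h4 β hβ1
  have hom : ‖om‖ = 1 := h5.2.2.2.1
  have hom2 : ‖om ^ 2‖ = 1 := by rw [norm_pow, hom, one_pow]
  set D : Set ℂ := {ζ | ζ ∈ Tb β ∧ om * ζ ∈ Tb β ∧ om ^ 2 * ζ ∈ Tb β} with hD
  have hc1 : Continuous fun z : ℂ => om * z := by fun_prop
  have hc2 : Continuous fun z : ℂ => om ^ 2 * z := by fun_prop
  have hDo : IsOpen D := hop.inter ((hop.preimage hc1).inter (hop.preimage hc2))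
  have hDb : Bornology.IsBounded D := hbd.subset (fun z hz => hz.1)
  have hD0 : closure D ⊆ closure (Tb β) := closure_mono (fun z hz => hz.1)
  have hD1 : ∀ z ∈ closure D, om * z ∈ closure (Tb β) := by
    intro z hz
    exact hc1.closure_preimage_subset (Tb β) (closure_mono (fun z hz => hz.2.1) hz)
  have hD2 : ∀ z ∈ closure D, om ^ 2 * z ∈ closure (Tb β) := by
    intro z hz
    exact hc2.closure_preimage_subset (Tb β) (closure_mono (fun z hz => hz.2.2) hz)
  set c : ℝ := (1 + ‖β‖ ^ 2) / 3 with hc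
  set A : ℂ → ℝ := fun z => ((((1 + ‖β‖ ^ 2) / 12 : ℝ) : ℂ) * ev u0F (aff 0 z)).re with hA
  set B : ℂ → ℝ := fun z => (((‖β‖ ^ 2 / 10 ^ 8 : ℝ) : ℂ) * ev u0H (aff 0 z)).re with hB
  have hHH : ∀ z, HH β z = A z + B z := fun z => u0_HH h5 β z
  set w : ℂ → ℝ := ((c • v + c • (fun z => v (om * z))) + c • (fun z => v (om ^ 2 * z))) - (A + B) with hw
  have hwz : ∀ z, w z = c * v z + c * v (om * z) + c * v (om ^ 2 * z) - HH β z := by
    intro z; rw [hHH]; simp [hw]
  have hAs : ∀ z, ContDiffAt ℝ 2 A z := fun z => u0_smooth _ _ z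
  have hBs : ∀ z, ContDiffAt ℝ 2 B z := fun z => u0_smooth _ _ z
  have hAc : Continuous A := by
    rw [continuous_iff_continuousAt]; exact fun z => (hAs z).continuousAt
  have hBc : Continuous B := by
    rw [continuous_iff_continuousAt]; exact fun z => (hBs z).continuousAt
  have hcont : ContinuousOn w (closure D) := by
    have k0 : ContinuousOn v (closure D) := hv.cont.mono hD0
    have k1 : ContinuousOn (fun z => v (om * z)) (closure D) :=
      hv.cont.comp hc1.continuousOn hD1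
    have k2 : ContinuousOn (fun z => v (om ^ 2 * z)) (closure D) :=
      hv.cont.comp hc2.continuousOn hD2
    exact (((k0.const_smul c).add (k1.const_smul c)).add (k2.const_smul c)).sub
      (hAc.add hBc).continuousOn
  have hva : ∀ z ∈ Tb β, ContDiffAt ℝ 2 v z := fun z hz => hv.smooth.contDiffAt (hop.mem_nhds hz)
  have m1 : ∀ z ∈ D, ContDiffAt ℝ 2 (fun z => v (om * z)) z := by
    intro z hz
    exact (hva _ hz.2.1).comp z (contDiff_const.mul contDiff_id).contDiffAt
  have m2 : ∀ z ∈ D, ContDiffAt ℝ 2 (fun z => v (om ^ 2 * z)) z := by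
    intro z hz
    exact (hva _ hz.2.2).comp z (contDiff_const.mul contDiff_id).contDiffAt
  have hws : ∀ z ∈ D, ContDiffAt ℝ 2 w z := by
    intro z hz
    exact ((((hva z hz.1).const_smul c).add ((m1 z hz).const_smul c)).add ((m2 z hz).const_smul c)).sub
      ((hAs z).add (hBs z))
  have hlap : ∀ z ∈ D, 0 ≤ (Δ w) z := by
    intro z hz
    have e0 : (Δ v) z = -2 := by have := hv.pde z hz.1; linarith
    have e1 : (Δ fun z => v (om * z)) z = -2 := by
      have := h2.1 v om 0 z (by rw [zero_add]; exact hva _ hz.2.1)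
      simp only [zero_add] at this
      rw [this, hom]
      have := hv.pde _ hz.2.1; linarith
    have e2 : (Δ fun z => v (om ^ 2 * z)) z = -2 := by
      have := h2.1 v (om ^ 2) 0 z (by rw [zero_add]; exact hva _ hz.2.2)
      simp only [zero_add] at this
      rw [this, hom2]
      have := hv.pde _ hz.2.2; linarith
    have s0 : ContDiffAt ℝ 2 (c • v) z := (hva z hz.1).const_smul c
    have s1 : ContDiffAt ℝ 2 (c • fun z => v (om * z)) z := (m1 z hz).const_smul c
    have s2 : ContDiffAt ℝ 2 (c • fun z => v (om ^ 2 * z)) z := (m2 z hz).const_smul c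
    have s01 : ContDiffAt ℝ 2 (c • v + c • fun z => v (om * z)) z := s0.add s1
    have s012 : ContDiffAt ℝ 2 ((c • v + c • fun z => v (om * z)) + c • fun z => v (om ^ 2 * z)) z := s01.add s2
    have sAB : ContDiffAt ℝ 2 (A + B) z := (hAs z).add (hBs z)
    rw [hw, s012.laplacian_sub sAB, s01.laplacian_add s2,
      s0.laplacian_add s1, (hAs z).laplacian_add (hBs z), laplacian_smul c (hva z hz.1),
      laplacian_smul c (m1 z hz), laplacian_smul c (m2 z hz), e0, e1, e2, (u0_lap h3 β z).1, (u0_lap h3 β z).2]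
    simp only [smul_eq_mul, hc]
    linarith
  have hfr : ∀ z ∈ frontier D, w z ≤ 0 := by
    intro z hz
    rw [hDo.frontier_eq] at hz
    obtain ⟨hzc, hzD⟩ := hz
    have a0 : ∀ k, 0 ≤ X k (aff β z) := by
      have := hD0 hzc; rw [hcl] at this; exact this
    have a1 : ∀ k, 0 ≤ X k (aff β (om * z)) := by
      have := hD1 z hzc; rw [hcl] at this; exact this
    have a2 : ∀ k, 0 ≤ X k (aff β (om ^ 2 * z)) := by
      have := hD2 z hzc; rw [hcl] at this; exact this
    have hex : ∃ k, X k (aff β z) = 0 ∨ X k (aff β (om * z)) = 0 ∨ X k (aff β (om ^ 2 * z)) = 0 := by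
      by_contra hne
      push Not at hne
      apply hzD
      exact ⟨fun k => lt_of_le_of_ne (a0 k) (Ne.symm (hne k).1), fun k => lt_of_le_of_ne (a1 k) (Ne.symm (hne k).2.1),
        fun k => lt_of_le_of_ne (a2 k) (Ne.symm (hne k).2.2)⟩
    have hJ := h7 β z hβ a0 a1 a2 hex
    have l0 := (abs_le.mp (hL z a0)).2
    have l1 := (abs_le.mp (hL (om * z) a1)).2
    have l2 := (abs_le.mp (hL (om ^ 2 * z) a2)).2
    rw [hwz, hc]
    have : (1 + ‖β‖ ^ 2) / 3 * v z + (1 + ‖β‖ ^ 2) / 3 * v (om * z) + (1 + ‖β‖ ^ 2) / 3 * v (om ^ 2 * z)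
      = ((1 + ‖β‖ ^ 2) * v z + (1 + ‖β‖ ^ 2) * v (om * z) + (1 + ‖β‖ ^ 2) * v (om ^ 2 * z)) / 3 := by ring
    rw [this]
    linarith
  have h0D : (0 : ℂ) ∈ D := by
    have : (0 : ℂ) ∈ Tb β := by intro k; simp [X, aff]
    refine ⟨this, ?_, ?_⟩ <;> simpa using this
  have := h1 D w hDo hDb hcont (fun z hz => (hws z hz).contDiffWithinAt) hlap hfr 0 (subset_closure h0D)
  rw [hwz] at this
  simp only [mul_zero, hc] at this
  linarith

end Pool.TRI.A
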