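import Pool.Agent.H89.TRI.Lib

/-!
# Module FACW of block B of project TRI
-/

open MvPolynomial

namespace Pool.TRI.K

/-! ### `facI` as a linear map -/

private noncomputable def facw_w (α : Fin 3 →₀ ℕ) : ℝ := (((α 0).factorial * (α 1).factorial * (α 2).factorial : ℕ) : ℝ)

private theorem facw_sum (F : MP) (S : Finset (Fin 3 →₀ ℕ)) (hS : F.support ⊆ S) :
    facI F = ∑ α ∈ S, coeff α F * facw_w α := by
  unfold facI
  refine Finset.sum_subset hS fun α _ hα => ?_
  rw [MvPolynomial.notMem_support_iff.1 hα, zero_mul]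

private noncomputable def facw_L : MP →ₗ[ℝ] ℝ where
  toFun := facI
  map_add' F G := by
    classical
    rw [facw_sum F (F.support ∪ G.support) Finset.subset_union_left,
      facw_sum G (F.support ∪ G.support) Finset.subset_union_right,
      facw_sum (F + G) (F.support ∪ G.support) MvPolynomial.support_add, ← Finset.sum_add_distrib]
    refine Finset.sum_congr rfl fun α _ => ?_
    rw [coeff_add]; ring
  map_smul' c F := by
    rw [facw_sum F F.support (Finset.Subset.refl _), facw_sum (c • F) F.support MvPolynomial.support_smul,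
      RingHom.id_apply, smul_eq_mul, Finset.mul_sum]
    refine Finset.sum_congr rfl fun α _ => ?_
    rw [coeff_smul, smul_eq_mul]; ring

private theorem facw_mono (i j k : ℕ) : facI (X 0 ^ i * X 1 ^ j * X 2 ^ k : MP) =
    ((i.factorial * j.factorial * k.factorial : ℕ) : ℝ) := by
  have h : (X 0 ^ i * X 1 ^ j * X 2 ^ k : MP) =
      monomial (Finsupp.single 0 i + Finsupp.single 1 j + Finsupp.single 2 k) 1 := by
    simp only [MvPolynomial.X_pow_eq_monomial, MvPolynomial.monomial_mul, mul_one]
  rw [h, facw_sum _ _ (MvPolynomial.support_monomial_subset), Finset.sum_singleton, coeff_monomial, if_pos rfl, one_mul]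
  unfold facw_w
  simp

/-! ### entries -/

private def facw_gt (G : Net) (i j : ℕ) : ℤ := (G.getD i []).getD j 0

private theorem facw_gt_tl (G : Net) (i j : ℕ) : facw_gt (tl G) i j = facw_gt G (i + 1) j := by
  cases G with
  | nil => simp [facw_gt, tl_eq]
  | cons g G => simp [facw_gt, tl_eq]

private theorem facw_gt_mtl (G : Net) (i j : ℕ) : facw_gt (mp tl G) i j = facw_gt G i (j + 1) := by
  unfold facw_gt
  rw [mp_eq]
  have h : (G.map tl).getD i [] = tl (G.getD i []) := by
    have := List.getD_map (l := G) (d := ([] : Row)) (n := i) (tl : Row → Row)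
    exact this
  rw [h, tl_eq]
  cases G.getD i [] with
  | nil => simp
  | cons a l => simp

/-! ### representation of linear functionals by nets -/

private def facw_Rep (N : ℕ) (Φ : MP →ₗ[ℝ] ℝ) (G : Net) : Prop :=
  ∀ i j : ℕ, i + j ≤ N → (facw_gt G i j : ℝ) = Φ (X 0 ^ i * X 1 ^ j * X 2 ^ (N - i - j))

/-- `Φ (F * ·)` -/
private noncomputable def facw_mul (F : MP) (Φ : MP →ₗ[ℝ] ℝ) : MP →ₗ[ℝ] ℝ := Φ ∘ₗ LinearMap.mulLeft ℝ F

private theorem facw_mul_apply (F G : MP) (Φ : MP →ₗ[ℝ] ℝ) : facw_mul F Φ G = Φ (F * G) := rfl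

private theorem facw_Rep_tl {N : ℕ} {Φ : MP →ₗ[ℝ] ℝ} {G : Net} (h : facw_Rep (N + 1) Φ G) :
    facw_Rep N (facw_mul (X 0) Φ) (tl G) := by
  intro i j hij
  rw [facw_gt_tl, h (i + 1) j (by omega), facw_mul_apply]
  congr 1
  rw [show N + 1 - (i + 1) - j = N - i - j by omega, pow_succ]; ring

private theorem facw_Rep_mtl {N : ℕ} {Φ : MP →ₗ[ℝ] ℝ} {G : Net} (h : facw_Rep (N + 1) Φ G) :
    facw_Rep N (facw_mul (X 1) Φ) (mp tl G) := by
  intro i j hij
  rw [facw_gt_mtl, h i (j + 1) (by omega), facw_mul_apply]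
  congr 1
  rw [show N + 1 - i - (j + 1) = N - i - j by omega, pow_succ]; ring

private theorem facw_Rep_res {N k : ℕ} {Φ : MP →ₗ[ℝ] ℝ} {G : Net} (h : facw_Rep (N + k) Φ G) :
    facw_Rep N (facw_mul (X 2 ^ k) Φ) G := by
  intro i j hij
  rw [h i j (by omega), facw_mul_apply]
  congr 1
  rw [show N + k - i - j = k + (N - i - j) by omega, pow_add]; ring

private theorem facw_dotR_cons (a : ℤ) (r m : Row) : dotR (a :: r) m = a * m.getD 0 0 + dotR r m.tail := by
  cases m with
  | nil =>
    have h : ∀ r : Row, dotR r [] = 0 := by intro r; cases r <;> rfl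
    rw [h]; simp [h]
  | cons b m => rfl

private theorem facw_dotN_cons (a : Row) (r m : Net) : dotN (a :: r) m = dotR a (m.getD 0 []) + dotN r (tl m) := by
  have hR : ∀ r : Row, dotR r [] = 0 := by intro r; cases r <;> rfl
  have hN : ∀ r : Net, dotN r [] = 0 := by intro r; cases r <;> rfl
  cases m with
  | nil => rw [hN, tl_eq]; simp [hR, hN]
  | cons b m => rfl

private theorem facw_dotR (r : Row) (g : Row) (Φ : MP →ₗ[ℝ] ℝ)
    (h : ∀ j < r.length, (g.getD j 0 : ℝ) = Φ (X 1 ^ j * X 2 ^ (r.length - 1 - j))) :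
    (dotR r g : ℝ) = Φ (lin (A := MP) (fun a : ℤ => (C (a : ℝ) : MP)) r (X 1) (X 2)) := by
  induction r generalizing g Φ with
  | nil => simp [dotR]
  | cons a r ih =>
    rw [facw_dotR_cons, lin_cons]
    have h0 := h 0 (by simp)
    have h1 := ih g.tail (facw_mul (X 1) Φ) (by
      intro j hj
      have := h (j + 1) (by simp; omega)
      rw [facw_mul_apply]
      have e : g.tail.getD j 0 = g.getD (j + 1) 0 := by cases g <;> simp
      rw [e, this]
      congr 1
      rw [List.length_cons, show r.length + 1 - 1 - (j + 1) = r.length - 1 - j by omega, pow_succ]; ring)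
    push_cast
    rw [h0, h1, facw_mul_apply, map_add]
    congr 1
    simp only [pow_zero, one_mul, List.length_cons, Nat.add_sub_cancel, Nat.sub_zero, smul_eq_mul]
    rw [mul_comm (X 2 ^ r.length) (C (a : ℝ)), ← MvPolynomial.smul_eq_C_mul, map_smul, smul_eq_mul]

private theorem facw_dotN (n : ℕ) (P G : Net) (Φ : MP →ₗ[ℝ] ℝ) (hP : Sh (n + 1) P) (h : facw_Rep n Φ G) :
    (dotN P G : ℝ) = Φ (toP P) := by
  induction n generalizing P G Φ with
  | zero =>
    obtain ⟨r, P', rfl, h1, h2⟩ := (Sh_succ 0 P).1 hP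
    rw [Sh_zero] at h2
    subst h2
    rw [facw_dotN_cons]
    have e : (dotN ([] : Net) (tl G)) = 0 := rfl
    rw [e, add_zero]
    unfold toP
    rw [ter_cons, ter_nil, smul_zero, add_zero]
    refine facw_dotR r (G.getD 0 []) Φ ?_
    intro j hj
    have := h 0 j (by omega)
    rw [show (G.getD 0 []).getD j 0 = facw_gt G 0 j from rfl, this]
    congr 1
    rw [h1]
    simp
  | succ n ih =>
    obtain ⟨r, P', rfl, h1, h2⟩ := (Sh_succ (n + 1) P).1 hP
    rw [facw_dotN_cons]
    have hrec := ih P' (tl G) (facw_mul (X 0) Φ) h2 (facw_Rep_tl h)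
    unfold toP
    rw [ter_cons]
    push_cast
    rw [hrec, facw_mul_apply, map_add, smul_eq_mul]
    congr 1
    refine facw_dotR r (G.getD 0 []) Φ ?_
    intro j hj
    have := h 0 j (by omega)
    rw [show (G.getD 0 []).getD j 0 = facw_gt G 0 j from rfl, this]
    congr 1
    rw [h1, pow_zero, one_mul]
    congr 2

/-! ### the functional `w` -/

private theorem facw_wRow_zero (psi : Net) (G : Net) : wRow psi 0 G = [] := rfl
private theorem facw_wRow_succ (psi : Net) (n : ℕ) (G : Net) :
    wRow psi (n + 1) G = dotN psi G :: wRow psi n (mp tl G) := rfl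
private theorem facw_wN_zero (psi : Net) (G : Net) : wN psi 0 G = [wRow psi 1 G] := rfl
private theorem facw_wN_succ (psi : Net) (k : ℕ) (G : Net) :
    wN psi (k + 1) G = wRow psi (k + 2) G :: wN psi k (tl G) := rfl

private theorem facw_wRow (m n : ℕ) (psi : Net) (hpsi : Sh (m + 1) psi) (G : Net) (Φ : MP →ₗ[ℝ] ℝ)
    (h : facw_Rep (m + n) Φ G) (j : ℕ) (hj : j ≤ n) :
    ((wRow psi (n + 1) G).getD j 0 : ℝ) = Φ (X 1 ^ j * X 2 ^ (n - j) * toP psi) := by
  induction j generalizing n G Φ with
  | zero =>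
    rw [facw_wRow_succ, List.getD_cons_zero]
    rw [facw_dotN m psi G (facw_mul (X 2 ^ n) Φ) hpsi (facw_Rep_res h), facw_mul_apply]
    simp
  | succ j ih =>
    obtain ⟨n, rfl⟩ : ∃ n', n = n' + 1 := ⟨n - 1, by omega⟩
    rw [facw_wRow_succ, List.getD_cons_succ]
    rw [ih n (mp tl G) (facw_mul (X 1) Φ) (facw_Rep_mtl h) (by omega), facw_mul_apply]
    congr 1
    rw [show n + 1 - (j + 1) = n - j by omega, pow_succ]; ring

private theorem facw_wN (m e : ℕ) (psi : Net) (hpsi : Sh (m + 1) psi) (G : Net) (Φ : MP →ₗ[ℝ] ℝ)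
    (h : facw_Rep (m + e) Φ G) : facw_Rep e (facw_mul (toP psi) Φ) (wN psi e G) := by
  induction e generalizing G Φ with
  | zero =>
    intro i j hij
    have hi : i = 0 := by omega
    have hj : j = 0 := by omega
    subst hi; subst hj
    rw [facw_wN_zero]
    have := facw_wRow m 0 psi hpsi G Φ h 0 (le_refl _)
    rw [show facw_gt [wRow psi 1 G] 0 0 = (wRow psi (0 + 1) G).getD 0 0 from rfl, this, facw_mul_apply]
    simp
  | succ e ih =>
    intro i j hij
    rw [facw_wN_succ]
    cases i with
    | zero =>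
      have := facw_wRow m (e + 1) psi hpsi G Φ h j (by omega)
      rw [show facw_gt (wRow psi (e + 2) G :: wN psi e (tl G)) 0 j = (wRow psi (e + 1 + 1) G).getD j 0 from rfl, this,
        facw_mul_apply]
      congr 1
      rw [Nat.sub_zero]; ring
    | succ i =>
      have := ih (tl G) (facw_mul (X 0) Φ) (facw_Rep_tl h) i j (by omega)
      rw [show facw_gt (wRow psi (e + 2) G :: wN psi e (tl G)) (i + 1) j = facw_gt (wN psi e (tl G)) i j from by
        simp [facw_gt], this]
      simp only [facw_mul_apply]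
      congr 1
      rw [show e + 1 - (i + 1) - j = e - i - j by omega, pow_succ]; ring

/-! ### the net of factorials -/

private def facw_F (n : ℕ) : Row := (List.range (n + 1)).map fun j => ((j.factorial : ℕ) : ℤ)

private theorem facw_facs (n p : ℕ) : facs n ((p.factorial : ℕ) : ℤ) ((p : ℤ) + 1) =
    (List.range (n + 1)).map fun j => (((p + j).factorial : ℕ) : ℤ) := by
  induction n generalizing p with
  | zero => simp [facs]
  | succ n ih =>
    have h1 : facs (n + 1) ((p.factorial : ℕ) : ℤ) ((p : ℤ) + 1) =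
        ((p.factorial : ℕ) : ℤ) :: facs n (Int.mul ((p.factorial : ℕ) : ℤ) ((p : ℤ) + 1)) (Int.add ((p : ℤ) + 1) 1) := rfl
    have h2 : Int.mul ((p.factorial : ℕ) : ℤ) ((p : ℤ) + 1) = (((p + 1).factorial : ℕ) : ℤ) := by
      show ((p.factorial : ℕ) : ℤ) * ((p : ℤ) + 1) = _
      rw [Nat.factorial_succ]; push_cast; ring
    have h3 : Int.add ((p : ℤ) + 1) 1 = ((p + 1 : ℕ) : ℤ) + 1 := by
      show (p : ℤ) + 1 + 1 = _
      push_cast; ring
    rw [h1, h2, h3, ih (p + 1)]
    have e : (List.range (n + 1 + 1)).map (fun j => (((p + j).factorial : ℕ) : ℤ)) =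
        ((p.factorial : ℕ) : ℤ) :: (List.range (n + 1)).map (fun j => (((p + (j + 1)).factorial : ℕ) : ℤ)) := by
      rw [List.range_succ_eq_map, List.map_cons, List.map_map]
      rfl
    rw [e]
    congr 1
    refine List.map_congr_left fun j _ => ?_
    rw [show p + 1 + j = p + (j + 1) by ring]

private theorem facw_facs' (n : ℕ) : facs n 1 1 = facw_F n := by
  have := facw_facs n 0
  simp only [Nat.factorial_zero, Nat.cast_one, Nat.cast_zero, zero_add] at this
  exact this

private theorem facw_dl (n : ℕ) : dl (facw_F (n + 1)) = facw_F n := by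
  rw [dl_eq]
  unfold facw_F
  rw [List.range_succ, List.map_append, List.map_singleton, List.dropLast_concat]

private theorem facw_F_length (n : ℕ) : (facw_F n).length = n + 1 := by simp [facw_F]

private theorem facw_F_get (n j : ℕ) (hj : j < (facw_F n).length) : (facw_F n)[j] = ((j.factorial : ℕ) : ℤ) := by
  simp [facw_F]

private theorem facw_prod (n j : ℕ) (hj : j ≤ n) :
    (zw Int.mul (facw_F n) (rev (facw_F n))).getD j 0 = (j.factorial : ℤ) * ((n - j).factorial : ℤ) := by
  rw [zw_eq, rev_eq]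
  have hl : j < (List.zipWith Int.mul (facw_F n) (facw_F n).reverse).length := by
    simp [facw_F_length]; omega
  rw [List.getD_eq_getElem _ _ hl, List.getElem_zipWith, List.getElem_reverse, facw_F_get, facw_F_get, facw_F_length]
  show ((j.factorial : ℕ) : ℤ) * (((n + 1 - 1 - j).factorial : ℕ) : ℤ) = _
  rw [Nat.add_sub_cancel]

private theorem facw_aux_get (n i : ℕ) (hi : i ≤ n) :
    (facAux n (facw_F n)).length = n + 1 ∧
    (facAux n (facw_F n)).getD i [] = zw Int.mul (facw_F (n - i)) (rev (facw_F (n - i))) := by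
  induction n generalizing i with
  | zero =>
    have : i = 0 := by omega
    subst this
    exact ⟨rfl, rfl⟩
  | succ n ih =>
    have h1 : facAux (n + 1) (facw_F (n + 1)) =
        zw Int.mul (facw_F (n + 1)) (rev (facw_F (n + 1))) :: facAux n (dl (facw_F (n + 1))) := rfl
    rw [h1, facw_dl]
    refine ⟨by rw [List.length_cons, (ih 0 (by omega)).1], ?_⟩
    cases i with
    | zero => rfl
    | succ i =>
      rw [List.getD_cons_succ, (ih i (by omega)).2, show n + 1 - (i + 1) = n - i by omega]

private theorem facw_facN (n : ℕ) : facw_Rep n facw_L (facN n) := by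
  intro i j hij
  have h1 : facw_L (X 0 ^ i * X 1 ^ j * X 2 ^ (n - i - j)) =
      ((i.factorial * j.factorial * (n - i - j).factorial : ℕ) : ℝ) := facw_mono i j (n - i - j)
  rw [h1]
  have h2 : (facN n).getD i [] = smR ((i.factorial : ℕ) : ℤ) (zw Int.mul (facw_F (n - i)) (rev (facw_F (n - i)))) := by
    unfold facN
    rw [facw_facs', zw_eq]
    have hl1 : i < (facw_F n).length := by rw [facw_F_length]; omega
    have hl2 : i < (facAux n (facw_F n)).length := by rw [(facw_aux_get n i (by omega)).1]; omega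
    have hl : i < (List.zipWith smR (facw_F n) (facAux n (facw_F n))).length := by
      rw [List.length_zipWith]; omega
    rw [List.getD_eq_getElem _ _ hl, List.getElem_zipWith, facw_F_get]
    rw [← List.getD_eq_getElem _ [] hl2, (facw_aux_get n i (by omega)).2]
  have h3 : facw_gt (facN n) i j = ((i.factorial : ℕ) : ℤ) * (((j.factorial : ℕ) : ℤ) * (((n - i - j).factorial : ℕ) : ℤ)) := by
    unfold facw_gt
    rw [h2, smR_eq, ← facw_prod (n - i) j (by omega)]
    have := List.getD_map (l := zw Int.mul (facw_F (n - i)) (rev (facw_F (n - i)))) (d := (0 : ℤ)) (n := j)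
      (((i.factorial : ℕ) : ℤ) * ·)
    simp only [mul_zero] at this
    exact this
  rw [h3]
  push_cast
  ring

private theorem facw_mtt (G : Net) : mp (fun r => tl (tl r)) G = mp tl (mp tl G) := by
  simp only [mp_eq, List.map_map, Function.comp_def]

/-- FACW -/
theorem facw : FACWStmt := by
  intro m e psi Q hpsi hQ
  constructor
  · have h0 := facw_facN (m + e + 3)
    have h1 := facw_Rep_mtl (facw_Rep_tl (N := m + e + 2) h0)
    have h2 : facw_Rep (m + e) _ _ := facw_Rep_res (k := 1) h1
    have h3 := facw_dotN e Q _ _ hQ (facw_wN m e psi hpsi _ _ h2)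
    rw [h3]
    simp only [facw_mul_apply]
    show facI _ = facI _
    congr 1
    ring
  · have h0 := facw_facN (m + e + 6)
    have h1 := facw_Rep_mtl (N := m + e + 2) (facw_Rep_mtl (N := m + e + 3) (facw_Rep_tl (N := m + e + 4) (facw_Rep_tl (N := m + e + 5) h0)))
    have h2 : facw_Rep (m + e) _ _ := facw_Rep_res (k := 2) h1
    have h3 := facw_dotN e Q _ _ hQ (facw_wN m e psi hpsi _ _ h2)
    rw [facw_mtt, h3]
    simp only [facw_mul_apply]
    show facI _ = facI _
    congr 1
    ring

end Pool.TRI.K
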