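import Pool.Agent.H89.TRI.Lib

/-!
# Module LEAF of block B of project TRI
-/

namespace Pool.TRI.K

private theorem leaf_rep_succ (W m : ℕ) : repW W (m + 1) = 1 + W * repW W m := by
  show Nat.succ (Nat.mul W (repW W m)) = _
  rw [Nat.succ_eq_add_one, add_comm]; rfl

private theorem leaf_aux (w m : ℕ) (d : ℕ → ℕ) (hd : ∀ k < m, d k < 2 ^ (w + 1))
    (h : (∑ k ∈ Finset.range m, (2 ^ (w + 1)) ^ k * d k) &&& (2 ^ w * repW (2 ^ (w + 1)) m) =
      2 ^ w * repW (2 ^ (w + 1)) m) : ∀ k < m, 2 ^ w ≤ d k := by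
  induction m generalizing d with
  | zero => intro k hk; omega
  | succ m ih =>
    set W := 2 ^ (w + 1) with hW
    have hWpos : 0 < W := by positivity
    set S := ∑ k ∈ Finset.range m, W ^ k * d (k + 1) with hS
    have hsum : (∑ k ∈ Finset.range (m + 1), W ^ k * d k) = d 0 + W * S := by
      rw [Finset.sum_range_succ', hS, Finset.mul_sum, pow_zero, one_mul, add_comm]
      congr 1
      refine Finset.sum_congr rfl fun k _ => ?_
      rw [pow_succ]; ring
    have hrep : 2 ^ w * repW W (m + 1) = 2 ^ w + W * (2 ^ w * repW W m) := by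
      rw [leaf_rep_succ]; ring
    rw [hsum, hrep] at h
    have hw : 2 ^ w < W := by
      have h2 : 0 < 2 ^ w := by positivity
      rw [hW, pow_succ]; omega
    have h0 : d 0 &&& 2 ^ w = 2 ^ w := by
      have := congrArg (fun x => x % 2 ^ (w + 1)) h
      simp only [Nat.and_mod_two_pow] at this
      rw [← hW, Nat.add_mul_mod_self_left, Nat.add_mul_mod_self_left, Nat.mod_eq_of_lt (hd 0 (by omega)),
        Nat.mod_eq_of_lt hw] at this
      exact this
    have h1 : S &&& (2 ^ w * repW W m) = 2 ^ w * repW W m := by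
      have := congrArg (fun x => x / 2 ^ (w + 1)) h
      simp only [Nat.and_div_two_pow] at this
      rw [← hW, Nat.add_mul_div_left _ _ hWpos, Nat.add_mul_div_left _ _ hWpos,
        Nat.div_eq_of_lt (hd 0 (by omega)), Nat.div_eq_of_lt hw, zero_add, zero_add] at this
      exact this
    intro k hk
    cases k with
    | zero =>
      have := Nat.and_le_left (n := d 0) (m := 2 ^ w)
      omega
    | succ k => exact ih (fun k => d (k + 1)) (fun k hk => hd (k + 1) (by omega)) h1 k (by omega)

/-- LEAF -/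
theorem leaf : LEAFStmt := by
  intro K2 K w m o z q hq hK hz hok k hk
  unfold okC at hok
  cases h1 : Nat.ble (Nat.succ (Nat.mul K2 o)) (Nat.pow 2 w) with
  | false => rw [h1] at hok; exact absurd hok (by simp)
  | true =>
    rw [h1] at hok
    have h2 : K2 * o + 1 ≤ 2 ^ w := Nat.le_of_ble_eq_true h1
    have h3 := Nat.eq_of_beq_eq_true hok
    have h4 : (z + (2 ^ w - K * o) * repW (2 ^ (w + 1)) m) &&& (2 ^ w * repW (2 ^ (w + 1)) m) =
        2 ^ w * repW (2 ^ (w + 1)) m := h3
    have hrep : ∀ m, repW (2 ^ (w + 1)) m = ∑ k ∈ Finset.range m, (2 ^ (w + 1)) ^ k := by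
      intro m
      induction m with
      | zero => rfl
      | succ m ih =>
        rw [leaf_rep_succ, ih, Finset.sum_range_succ', Finset.mul_sum, pow_zero, add_comm]
        congr 1
        refine Finset.sum_congr rfl fun k _ => ?_
        rw [pow_succ]; ring
    have hKo : K * o ≤ K2 * o := Nat.mul_le_mul_right o hK
    have h5 : z + (2 ^ w - K * o) * repW (2 ^ (w + 1)) m =
        ∑ k ∈ Finset.range m, (2 ^ (w + 1)) ^ k * (q k + (2 ^ w - K * o)) := by
      rw [hz, hrep, Finset.mul_sum, ← Finset.sum_add_distrib]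
      refine Finset.sum_congr rfl fun k _ => ?_
      ring
    rw [h5] at h4
    have h6 := leaf_aux w m (fun k => q k + (2 ^ w - K * o)) (fun k hk => by
      have := hq k hk
      have h8 : 2 ^ (w + 1) = 2 * 2 ^ w := by rw [pow_succ]; ring
      show q k + (2 ^ w - K * o) < 2 ^ (w + 1)
      omega) h4 k hk
    have h7 : 2 ^ w ≤ q k + (2 ^ w - K * o) := h6
    omega

end Pool.TRI.K
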