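import Pool.Agent.H89.TRI.Lib

/-!
# Module ROW of block B of project TRI
-/

namespace Pool.TRI.K

section
variable {α : Type} [AddCommMonoid α]

private theorem row_stp (a c : ℕ) (g : List ℕ) (p : ℕ) : stp a c g p = stpG a c g p := by
  induction g generalizing p with
  | nil => rfl
  | cons x g ih =>
    show Nat.add x (Nat.mul a p) :: stp a c g x = _
    rw [ih]; rfl

private theorem row_shR (a : ℕ) (l : List ℕ) : shR a l = shRG a l := by
  induction l with
  | nil => rfl
  | cons c l ih =>
    show stp a c (shR a l) 0 = _
    rw [ih, row_stp]; rfl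

private theorem row_shL (a : ℕ) (l acc : List ℕ) : shL a l acc = shLG a l acc := by
  induction l generalizing acc with
  | nil => rfl
  | cons c l ih =>
    show shL a l (stp a c acc 0) = _
    rw [ih, row_stp]; rfl

private theorem row_scA (b : ℕ) (l : List ℕ) (p : ℕ) : scA b l p = scAG b l p := by
  induction l generalizing p with
  | nil => rfl
  | cons c l ih =>
    show Nat.mul c p :: scA b l (Nat.mul p b) = (p • c) :: scAG b l (p * b)
    rw [ih]
    congr 1
    exact mul_comm c p

private theorem row_scD (b : ℕ) (l : List ℕ) : scD b l = (scDG b l, b ^ l.length) := by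
  induction l with
  | nil => rfl
  | cons c l ih =>
    show Prod.rec (motive := fun _ => List ℕ × ℕ) (fun m p => ((Nat.mul c p) :: m, Nat.mul p b)) (scD b l) = _
    rw [ih]
    show ((Nat.mul c (b ^ l.length)) :: scDG b l, Nat.mul (b ^ l.length) b) = _
    have h1 : Nat.mul c (b ^ l.length) = b ^ l.length • c := mul_comm c (b ^ l.length)
    have h2 : Nat.mul (b ^ l.length) b = b ^ (c :: l).length := by
      rw [List.length_cons, pow_succ]; rfl
    rw [h1, h2]; rfl

private theorem row_scD_one (l : List α) : scDG 1 l = l := by
  induction l with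
  | nil => rfl
  | cons c l ih => simp [scDG, ih]

private theorem row_scA_one (l : List α) : scAG 1 l 1 = l := by
  induction l with
  | nil => rfl
  | cons c l ih => simp [scAG, ih]

private theorem row_row1 (a b : ℕ) (l : List ℕ) : row1 a b l = row1G a b l := by
  unfold row1 row1G
  cases h : Nat.beq b 1
  · show shR a (Prod.fst (scD b l)) = _
    rw [row_scD, row_shR]
  · show shR a l = _
    have hb : b = 1 := Nat.eq_of_beq_eq_true h
    rw [hb, row_scD_one, row_shR]

private theorem row_row2 (a b : ℕ) (l : List ℕ) : row2 a b l = row2G a b l := by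
  unfold row2 row2G
  cases h : Nat.beq a 1
  · show shL b (scA a l 1) [] = _
    rw [row_scA, row_shL]
  · show shL b l [] = _
    have hb : a = 1 := Nat.eq_of_beq_eq_true h
    rw [hb, row_scA_one, row_shL]

variable {β : Type} [AddCommMonoid β]

private theorem row_stpG_map (f : α →+ β) (a : ℕ) (c : α) (g : List α) (p : α) :
    stpG a (f c) (g.map f) (f p) = (stpG a c g p).map f := by
  induction g generalizing p with
  | nil => simp [stpG]
  | cons x g ih => simp [stpG, ih]

private theorem row_shRG_map (f : α →+ β) (a : ℕ) (l : List α) :
    shRG a (l.map f) = (shRG a l).map f := by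
  induction l with
  | nil => rfl
  | cons c l ih =>
    show stpG a (f c) (shRG a (l.map f)) 0 = (stpG a c (shRG a l) 0).map f
    rw [ih, ← row_stpG_map, map_zero]

private theorem row_shLG_map (f : α →+ β) (a : ℕ) (l acc : List α) :
    shLG a (l.map f) (acc.map f) = (shLG a l acc).map f := by
  induction l generalizing acc with
  | nil => rfl
  | cons c l ih =>
    show shLG a (l.map f) (stpG a (f c) (acc.map f) 0) = (shLG a l (stpG a c acc 0)).map f
    rw [← ih, ← row_stpG_map, map_zero]

private theorem row_scAG_map (f : α →+ β) (b : ℕ) (l : List α) (p : ℕ) :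
    scAG b (l.map f) p = (scAG b l p).map f := by
  induction l generalizing p with
  | nil => rfl
  | cons c l ih => simp [scAG, ih]

private theorem row_scDG_map (f : α →+ β) (b : ℕ) (l : List α) :
    scDG b (l.map f) = (scDG b l).map f := by
  induction l with
  | nil => rfl
  | cons c l ih => simp [scDG, ih]

private theorem row_stpG_length (a : ℕ) (c : α) (g : List α) (p : α) : (stpG a c g p).length = g.length + 1 := by
  induction g generalizing p with
  | nil => rfl
  | cons x g ih => simp [stpG, ih]

private theorem row_shRG_length (a : ℕ) (l : List α) : (shRG a l).length = l.length := by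
  induction l with
  | nil => rfl
  | cons c l ih => simp [shRG, row_stpG_length, ih]

private theorem row_shLG_length (a : ℕ) (l acc : List α) : (shLG a l acc).length = l.length + acc.length := by
  induction l generalizing acc with
  | nil => simp [shLG]
  | cons c l ih => simp [shLG, row_stpG_length, ih]; omega

private theorem row_scAG_length (b : ℕ) (l : List α) (p : ℕ) : (scAG b l p).length = l.length := by
  induction l generalizing p with
  | nil => rfl
  | cons c l ih => simp [scAG, ih]

private theorem row_scDG_length (b : ℕ) (l : List α) : (scDG b l).length = l.length := by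
  induction l with
  | nil => rfl
  | cons c l ih => simp [scDG, ih]

variable (c : α →+ ℝ)

private theorem row_lin_stpG (a : ℕ) (e : α) (g : List α) (p : α) (y z : ℝ) :
    lin (A := ℝ) c (stpG a e g p) y z =
      (z + a * y) * lin (A := ℝ) c g y z + y ^ g.length * c e + a * c p * z ^ g.length := by
  induction g generalizing p with
  | nil => simp [stpG]
  | cons x g ih =>
    simp only [stpG, lin_cons, ih, row_stpG_length, List.length_cons, smul_eq_mul, map_add, map_nsmul, nsmul_eq_mul]
    ring

private theorem row_lin_shRG (a : ℕ) (l : List α) (y z : ℝ) :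
    lin (A := ℝ) c (shRG a l) y z = lin (A := ℝ) c l (z + a * y) y := by
  induction l with
  | nil => rfl
  | cons e l ih =>
    simp only [shRG, row_lin_stpG, ih, lin_cons, row_shRG_length, map_zero, smul_eq_mul]
    ring

private theorem row_lin_shLG (a : ℕ) (l acc : List α) (y z : ℝ) :
    lin (A := ℝ) c (shLG a l acc) y z =
      (z + a * y) ^ l.length * lin (A := ℝ) c acc y z + y ^ acc.length * lin (A := ℝ) c l y (z + a * y) := by
  induction l generalizing acc with
  | nil => simp [shLG]
  | cons e l ih =>
    simp only [shLG, ih, row_lin_stpG, lin_cons, row_stpG_length, map_zero, smul_eq_mul, List.length_cons]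
    ring

private theorem row_lin_scAG (b : ℕ) (l : List α) (p : ℕ) (y z : ℝ) :
    lin (A := ℝ) c (scAG b l p) y z = p * lin (A := ℝ) c l (b * y) z := by
  induction l generalizing p with
  | nil => simp [scAG]
  | cons e l ih =>
    simp only [scAG, ih, lin_cons, row_scAG_length, smul_eq_mul, map_nsmul, nsmul_eq_mul, Nat.cast_mul]
    ring

private theorem row_lin_scDG (b : ℕ) (l : List α) (y z : ℝ) :
    lin (A := ℝ) c (scDG b l) y z = lin (A := ℝ) c l y (b * z) := by
  induction l with
  | nil => rfl
  | cons e l ih =>
    simp only [scDG, ih, lin_cons, row_scDG_length, smul_eq_mul, map_nsmul, nsmul_eq_mul, Nat.cast_pow]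
    ring

end

/-- ROW -/
theorem row : ROWStmt := by
  intro α _ a b l
  refine ⟨fun f => ⟨?_, ?_⟩, ?_, ?_, ?_⟩
  · rw [row_row1]; unfold row1G; rw [row_scDG_map, row_shRG_map]
  · rw [row_row2]; unfold row2G; rw [row_scAG_map, ← row_shLG_map]; rfl
  · unfold row1G; rw [row_shRG_length, row_scDG_length]
  · unfold row2G; rw [row_shLG_length, row_scAG_length]; rfl
  · intro c y z
    constructor
    · unfold row1G; rw [row_lin_shRG, row_lin_scDG]
    · unfold row2G; rw [row_lin_shLG, row_lin_scAG]; simp

end Pool.TRI.K
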