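import Pool.Agent.H89.TRI.Lib

/-!
# Module TR of block B of project TRI
-/

namespace Pool.TRI.K

section
variable {α β : Type}

private theorem tr_zc_nil (ts : List (List α)) : zc ([] : List α) ts = [] := rfl
private theorem tr_zc_cons_nil (c : α) (r : List α) : zc (c :: r) [] = [c] :: zc r [] := rfl
private theorem tr_zc_cons_cons (c : α) (r : List α) (t : List α) (ts : List (List α)) :
    zc (c :: r) (t :: ts) = (c :: t) :: zc r ts := rfl
private theorem tr_nil : tr ([] : List (List α)) = [] := rfl
private theorem tr_cons (r : List α) (P : List (List α)) : tr (r :: P) = zc r (tr P) := rfl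

private theorem tr_zc_map (f : α → β) (r : List α) (ts : List (List α)) :
    zc (r.map f) (ts.map (List.map f)) = (zc r ts).map (List.map f) := by
  induction r generalizing ts with
  | nil => rfl
  | cons c r ih =>
    cases ts with
    | nil =>
      have h := ih []
      simp only [List.map_nil] at h
      simp only [List.map_cons, List.map_nil, tr_zc_cons_nil, h]
    | cons t ts => simp only [List.map_cons, tr_zc_cons_cons, ih]

private theorem tr_map (f : α → β) (P : List (List α)) : tr (P.map (List.map f)) = (tr P).map (List.map f) := by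
  induction P with
  | nil => rfl
  | cons r P ih => rw [List.map_cons, tr_cons, tr_cons, ih, tr_zc_map]

private theorem tr_toE3 (P : List (List α)) : toE3 P = tr (P.map List.reverse) := by
  unfold toE3
  rw [mp_eq]
  congr 2
  funext l
  exact rev_eq l

private theorem tr_Sh_zc (n : ℕ) (r : List α) (ts : List (List α)) (hr : r.length = n + 1) (h : Sh n ts) :
    Sh (n + 1) (zc r ts) := by
  induction n generalizing r ts with
  | zero =>
    rw [Sh_zero] at h
    subst h
    obtain ⟨c, rfl⟩ := List.length_eq_one_iff.1 hr
    exact ⟨rfl, rfl⟩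
  | succ n ih =>
    obtain ⟨t, ts', rfl, h1, h2⟩ := (Sh_succ n ts).1 h
    cases r with
    | nil => simp at hr
    | cons c r =>
      rw [tr_zc_cons_cons, Sh_cons]
      exact ⟨by simp [h1], ih r ts' (by simpa using hr) h2⟩

private theorem tr_Sh (n : ℕ) (P : List (List α)) (h : Sh n P) : Sh n (tr P) := by
  induction n generalizing P with
  | zero => rw [Sh_zero] at h; subst h; rfl
  | succ n ih =>
    obtain ⟨r, P', rfl, h1, h2⟩ := (Sh_succ n P).1 h
    rw [tr_cons]
    exact tr_Sh_zc n r (tr P') h1 (ih P' h2)

private theorem tr_Sh_rev (n : ℕ) (P : List (List α)) (h : Sh n P) : Sh n (P.map List.reverse) := by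
  induction n generalizing P with
  | zero => rw [Sh_zero] at h; subst h; rfl
  | succ n ih =>
    obtain ⟨r, P', rfl, h1, h2⟩ := (Sh_succ n P).1 h
    rw [List.map_cons, Sh_cons]
    exact ⟨by simp [h1], ih P' h2⟩

variable {A M : Type} [CommSemiring A] [AddCommMonoid M] [Module A M]

private theorem tr_ter_zc (f : α → M) (n : ℕ) (r : List α) (ts : List (List α)) (hr : r.length = n + 1)
    (h : Sh n ts) (x y z : A) : ter f (zc r ts) x y z = lin f r x z + y • ter f ts x y z := by
  induction n generalizing r ts with
  | zero =>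
    rw [Sh_zero] at h
    subst h
    obtain ⟨c, rfl⟩ := List.length_eq_one_iff.1 hr
    simp [tr_zc_cons_nil, tr_zc_nil]
  | succ n ih =>
    obtain ⟨t, ts', rfl, h1, h2⟩ := (Sh_succ n ts).1 h
    cases r with
    | nil => simp at hr
    | cons c r =>
      have hr' : r.length = n + 1 := by simpa using hr
      rw [tr_zc_cons_cons, ter_cons, lin_cons, lin_cons, ter_cons, ih r ts' hr' h2, h1, hr']
      simp only [smul_add, smul_smul]
      rw [mul_comm x y]
      abel

private theorem tr_ter (f : α → M) (n : ℕ) (P : List (List α)) (h : Sh n P) (x y z : A) :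
    ter f (tr P) x y z = ter f P y x z := by
  induction n generalizing P with
  | zero => rw [Sh_zero] at h; subst h; rfl
  | succ n ih =>
    obtain ⟨r, P', rfl, h1, h2⟩ := (Sh_succ n P).1 h
    rw [tr_cons, tr_ter_zc f n r (tr P') h1 (tr_Sh n P' h2), ih P' h2, ter_cons]

private theorem tr_ter_rev (f : α → M) (P : List (List α)) (x y z : A) :
    ter f (P.map List.reverse) x y z = ter f P x z y := by
  induction P with
  | nil => rfl
  | cons r P ih => rw [List.map_cons, ter_cons, ter_cons, ih, lin_reverse]

end

/-- TR -/
theorem trS : TRStmt := by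
  intro α P
  refine ⟨fun β f => ⟨tr_map f P, ?_⟩, ?_⟩
  · rw [tr_toE3, tr_toE3, ← tr_map]
    congr 1
    simp [List.map_map, Function.comp_def, List.map_reverse]
  · intro n h
    refine ⟨tr_Sh n P h, ?_, ?_⟩
    · rw [tr_toE3]; exact tr_Sh n _ (tr_Sh_rev n P h)
    · intro A M _ _ _ f x y z
      refine ⟨tr_ter f n P h x y z, ?_⟩
      rw [tr_toE3, tr_ter f n _ (tr_Sh_rev n P h), tr_ter_rev]

end Pool.TRI.K
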